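import Pool.Agent.Hhelper40.RMasa.Main
import Pool.Agent.Hhelper40.RMasa.Model

/-!
Conjugacy of masas in the hyperfinite II_1 factor is not turbulent: some masa has an orbit which is
not meagre.
-/

namespace Pool.Agent.Results.MP_ae6442_lc.NotTurbulent

open Pool.Agent.Hhelper40.RMasa

universe u

/-- In every hyperfinite II_1 factor (in standard form) there is a masa whose orbit under the
automorphism group is not meagre, so the action on the space of masas is not turbulent; and a
hyperfinite II_1 factor on a separable Hilbert space exists. -/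
theorem result :
    (∀ (H : Type u) [NormedAddCommGroup H] [InnerProductSpace ℂ H] [CompleteSpace H]
      (M : VonNeumannAlgebra H) (Ω : H), IsII1Factor M Ω → IsHyperfinite M →
        (∃ A : Masa M, ¬ IsMeagre (orbit A)) ∧ ¬ IsTurbulent M Ω) ∧
    (∃ (H : Type) (_ : NormedAddCommGroup H) (_ : InnerProductSpace ℂ H) (_ : CompleteSpace H)
      (_ : TopologicalSpace.SeparableSpace H) (M : VonNeumannAlgebra H) (Ω : H),
        IsII1Factor M Ω ∧ IsHyperfinite M ∧ ¬ IsTurbulent M Ω) := by
  have key : ∀ {H : Type u} [NormedAddCommGroup H] [InnerProductSpace ℂ H] [CompleteSpace H]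
      (M : VonNeumannAlgebra H) (Ω : H), IsII1Factor M Ω → IsHyperfinite M →
        (∃ A : Masa M, ¬ IsMeagre (orbit A)) ∧ ¬ IsTurbulent M Ω := by
    intro H _ _ _ M Ω hM hH
    obtain ⟨A, hA⟩ := exists_masa_not_meagre hM hH
    exact ⟨⟨A, hA⟩, fun h => hA (h.1 A).2⟩
  refine ⟨fun H _ _ _ M Ω hM hH => key M Ω hM hH, ?_⟩
  obtain ⟨H, i1, i2, i3, i4, M, Ω, hM, hH⟩ := exists_hyperfinite_II1_factor
  refine ⟨H, i1, i2, i3, i4, M, Ω, hM, hH, fun h => ?_⟩
  obtain ⟨A, hA⟩ := exists_masa_not_meagre hM hH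
  exact hA (h.1 A).2

end Pool.Agent.Results.MP_ae6442_lc.NotTurbulent
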